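import Pool.Agent.TH177.QL.Main

/-!
# MP_e7fbd4_ag, Q1: a smooth category of infinite Quillen-Lichtenbaum dimension

The question is whether the Quillen-Lichtenbaum dimension of every smooth `ℂ`-linear stable infinity
category is finite. We show that it is not.

The example. Let `A = ℤ[x, 1/x, 1/(1+x)]` and let `G = (A ⋊ ℤ) ⋊ ℤ` be Baumslag's group; the two
generators act on `A` by multiplication with `x` and `1 + x`. The group `G` is finitely presented
(Baumslag 1972; the proof is included below). Let `X` be its presentation complex, a finite CW complex,
and `L = C_*(ΩX; ℂ)` the dg algebra of chains on its loop space. As `X` is finite, `L` is smooth, and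
`H_0(L) = ℂ[G]`. By a theorem of Goodwillie `K_n(L; ℤ/2) = K_n(ℂ[G]; ℤ/2)` for all `n`.

For a group `H` let `M_n(H)` be the homotopy groups of the cofibre of the multiplication by the Bott
element on `K(ℂ[H]; ℤ/2)`. As K-theory with coefficients `ℤ/2` of `ℂ`-algebras is invariant under
homotopy (Weibel), there are exact sequences
`M_n(H) → M_n(H) → M_n(H ⋊_σ ℤ) → M_(n-1)(H) → M_(n-1)(H)` with the maps `σ - 1`, and
`M_n(H) = Λ^n(H / 2)` for a torsion-free abelian group `H`. If the Quillen-Lichtenbaum dimension of `L`
is finite then the Bott element acts bijectively on `K_n(L; ℤ/2)` for large `n`, and so `M_n(G) = 0` for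
large `n`. But `M_n(G)` is not zero for `n = 2^r - 2`, `r > 1`: the map `x - 1` is injective on the
exterior powers of positive degree of `A / 2 = F_2[x, 1/x, 1/(1+x)]`, so `M_n(G)` contains the
coinvariants of `x` and `1 + x` on `Λ^n(A / 2)`, and there is a non-zero invariant functional, the
determinant of the matrix of the values of `n` functions at the `n` elements of `F_(2^r)` different from
`0` and `1`; it is invariant as the product of all these elements is `1`, and the product of the
elements `1 + a` is also `1`.

The formalization. `KTheory` is the data of the categories, the smooth ones among them, their K-groups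
and topological K-groups with finite coefficients and the comparison maps; the dimension and Q1 are
defined as in the problem. The assumed facts, all of them known theorems, are `Bott` (the Bott element),
`Cofibre` (the long exact sequence of `M`), `Wang` and `AbelianValues` (the two facts about `M` above)
and `SmoothModel` (existence of `L`). Everything else is proved.
-/

namespace Pool.Agent.Results.MP_e7fbd4_ag.InfiniteDimension

open Pool.Agent.TH177.QL

universe u

/-- There is a smooth category of infinite Quillen-Lichtenbaum dimension; so Q1 is false. -/
theorem result {T : KTheory.{u, 0}} {B : T.Bott} {C : Cofibre B} (W : Wang C)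
    (E : AbelianValues C) (S : SmoothModel C) :
    (∃ L : T.Cat, T.Smooth L ∧ T.dimQL L = ⊤) ∧ ¬ T.Q1 :=
  ⟨exists_dimQL_eq_top W E S, not_Q1 W E S⟩

end Pool.Agent.Results.MP_e7fbd4_ag.InfiniteDimension
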